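import Mathlib

/-!
# Short cycles of the `3x+k` maps: the congruence condition and the primes which satisfy it
-/

set_option autoImplicit false

namespace Pool.Agent.K9h56.SC

open Finset

/-- The `3x+k` map on the integers. -/
def T (k x : ℤ) : ℤ := if x % 2 = 0 then x / 2 else (3 * x + k) / 2

/-- The orbit of `x` under the `3x+k` map ends in a cycle with `p` elements. -/
def EndsIn (k x : ℤ) (p : ℕ) : Prop :=
  1 ≤ p ∧ ∃ m : ℕ, Function.minimalPeriod (T k) ((T k)^[m] x) = p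

theorem two_T {k : ℤ} (hk : Odd k) (x : ℤ) : 2 * T k x = x ∨ 2 * T k x = 3 * x + k := by
  unfold T
  obtain ⟨j, rfl⟩ := hk
  by_cases h : x % 2 = 0
  · left
    rw [if_pos h]; omega
  · right
    rw [if_neg h]; omega

theorem iter {k : ℤ} (hk : Odd k) (n : ℕ) (x : ℤ) :
    ∃ o : ℕ, o ≤ n ∧ ∃ N : ℤ, 2 ^ n * (T k)^[n] x = 3 ^ o * x + k * N := by
  induction n with
  | zero => exact ⟨0, le_rfl, 0, by simp⟩
  | succ n ih =>
    obtain ⟨o, ho, N, hN⟩ := ih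
    rw [Function.iterate_succ_apply']
    set y := (T k)^[n] x
    rcases two_T hk y with h | h
    · refine ⟨o, by omega, N, ?_⟩
      rw [pow_succ, mul_assoc, h, hN]
    · refine ⟨o + 1, by omega, 3 * N + 2 ^ n, ?_⟩
      rw [pow_succ, mul_assoc, h, mul_add, show (2 : ℤ) ^ n * (3 * y) = 3 * (2 ^ n * y) by ring, hN]
      ring

theorem dvd_T {k d : ℤ} (hk : Odd k) (hd : d ∣ k) (h2 : IsCoprime d 2) (h3 : IsCoprime d 3) (x : ℤ) :
    d ∣ T k x ↔ d ∣ x := by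
  constructor
  · intro h
    have h4 : d ∣ 2 * T k x := h.mul_left 2
    rcases two_T hk x with h5 | h5
    · rwa [h5] at h4
    · rw [h5] at h4
      have h6 : d ∣ 3 * x := (dvd_add_left hd).1 h4
      exact h3.dvd_of_dvd_mul_left h6
  · intro h
    have h4 : d ∣ 2 * T k x := by
      rcases two_T hk x with h5 | h5
      · rwa [h5]
      · rw [h5]
        exact dvd_add (h.mul_left 3) hd
    exact h2.dvd_of_dvd_mul_left h4

theorem dvd_iter {k d : ℤ} (hk : Odd k) (hd : d ∣ k) (h2 : IsCoprime d 2) (h3 : IsCoprime d 3) (n : ℕ)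
    (x : ℤ) : d ∣ (T k)^[n] x ↔ d ∣ x := by
  induction n with
  | zero => simp
  | succ n ih => rw [Function.iterate_succ_apply', dvd_T hk hd h2 h3, ih]

/-- the product of the numbers `2 ^ p - 3 ^ o`, `o ≤ p ≤ P` -/
def R (P : ℕ) : ℕ := ∏ p ∈ Icc 1 P, ∏ o ∈ range (p + 1), ((2 : ℤ) ^ p - 3 ^ o).natAbs

theorem ne_pow {p o : ℕ} (hp : 1 ≤ p) : (2 : ℤ) ^ p - 3 ^ o ≠ 0 := by
  intro h
  have h1 : (2 : ℤ) ^ p = 3 ^ o := by linarith
  have h2 : (2 : ℤ) ∣ 3 ^ o := by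
    rw [← h1]; exact dvd_pow_self 2 (by omega)
  have h3 : (2 : ℤ) ∣ 3 := Int.prime_two.dvd_of_dvd_pow h2
  norm_num at h3

theorem R_ne (P : ℕ) : R P ≠ 0 := by
  unfold R
  rw [Finset.prod_ne_zero_iff]
  intro p hp
  rw [Finset.prod_ne_zero_iff]
  intro o _
  rw [Int.natAbs_ne_zero]
  exact ne_pow (by rw [mem_Icc] at hp; exact hp.1)

theorem natAbs_le {p o : ℕ} (ho : o ≤ p) : ((2 : ℤ) ^ p - 3 ^ o).natAbs ≤ 3 ^ p := by
  have h1 : (3 : ℤ) ^ o ≤ 3 ^ p := pow_le_pow_right₀ (by norm_num) ho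
  have h2 : (2 : ℤ) ^ p ≤ 3 ^ p := pow_le_pow_left₀ (by norm_num) (by norm_num) p
  have h3 : (0 : ℤ) < 2 ^ p := by positivity
  have h4 : (0 : ℤ) < 3 ^ o := by positivity
  have h5 : |(2 : ℤ) ^ p - 3 ^ o| ≤ 3 ^ p := by
    rw [abs_le]
    constructor <;> linarith
  have h6 : ((((2 : ℤ) ^ p - 3 ^ o).natAbs : ℕ) : ℤ) ≤ ((3 ^ p : ℕ) : ℤ) := by
    rw [Int.natCast_natAbs]
    push_cast
    exact h5
  exact_mod_cast h6

theorem R_le (P : ℕ) : R P ≤ 3 ^ (P * (P * (P + 1))) := by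
  unfold R
  calc (∏ p ∈ Icc 1 P, ∏ o ∈ range (p + 1), ((2 : ℤ) ^ p - 3 ^ o).natAbs)
      ≤ ∏ p ∈ Icc 1 P, 3 ^ (P * (P + 1)) := by
        apply Finset.prod_le_prod' 
        intro p hp
        rw [mem_Icc] at hp
        calc (∏ o ∈ range (p + 1), ((2 : ℤ) ^ p - 3 ^ o).natAbs) ≤ ∏ o ∈ range (p + 1), 3 ^ P := by
              apply Finset.prod_le_prod'
              intro o ho
              rw [mem_range] at ho
              exact (natAbs_le (by omega)).trans (pow_le_pow_right₀ (by norm_num) hp.2)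
          _ = 3 ^ (P * (p + 1)) := by
              rw [Finset.prod_const, card_range, ← pow_mul]
          _ ≤ 3 ^ (P * (P + 1)) := by
              apply pow_le_pow_right₀ (by norm_num)
              apply Nat.mul_le_mul_left
              omega
    _ = 3 ^ (P * (P * (P + 1))) := by
        rw [Finset.prod_const, Nat.card_Icc, ← pow_mul]
        congr 1
        have : P + 1 - 1 = P := by omega
        rw [this]; ring

theorem log_R_le {P : ℕ} (hP : 1 ≤ P) : Real.log (R P) ≤ 3 * (P : ℝ) ^ 3 := by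
  have h0 : (0 : ℝ) < R P := by exact_mod_cast Nat.pos_of_ne_zero (R_ne P)
  have h1 : (R P : ℝ) ≤ (3 : ℝ) ^ (P * (P * (P + 1))) := by exact_mod_cast R_le P
  have h2 := Real.log_le_log h0 h1
  rw [Real.log_pow] at h2
  have h3 : Real.log 3 < 1.1 := by
    rw [Real.log_lt_iff_lt_exp (by norm_num)]
    have h4 : (2.7182818283 : ℝ) < Real.exp 1 := Real.exp_one_gt_d9
    have h5 : Real.exp 1.1 = Real.exp 1 * Real.exp 0.1 := by
      rw [← Real.exp_add]; norm_num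
    have h6 : (0.1 : ℝ) + 1 ≤ Real.exp 0.1 := Real.add_one_le_exp 0.1
    have h7 : (0.1 : ℝ) + 1 + 0.1 ^ 2 / 2 ≤ Real.exp 0.1 := by
      have := Real.quadratic_le_exp_of_nonneg (x := 0.1) (by norm_num)
      linarith
    rw [h5]
    nlinarith
  have h4 : (1 : ℝ) ≤ P := by exact_mod_cast hP
  have h5 : (0 : ℝ) < Real.log 3 := Real.log_pos (by norm_num)
  push_cast at h2
  have h6 : (P : ℝ) * (P * (P + 1)) ≤ 2 * P ^ 3 := by nlinarith [sq_nonneg (P : ℝ), pow_pos (lt_of_lt_of_le one_pos h4) 2]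
  have h7 : (0 : ℝ) < (P : ℝ) ^ 3 := by positivity
  calc Real.log (R P) ≤ P * (P * (P + 1)) * Real.log 3 := h2
    _ ≤ 2 * P ^ 3 * 1.1 := by
        apply mul_le_mul h6 h3.le h5.le (by positivity)
    _ ≤ 3 * (P : ℝ) ^ 3 := by linarith

/-- the primes which divide one of the numbers `2 ^ p - 3 ^ o`, `o ≤ p ≤ P` -/
def Bad (P : ℕ) : Finset ℕ := (R P).primeFactors

theorem mem_Bad {P p o q : ℕ} (hq : q.Prime) (hp : 1 ≤ p) (hpP : p ≤ P) (ho : o ≤ p)
    (h : (q : ℤ) ∣ 2 ^ p - 3 ^ o) : q ∈ Bad P := by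
  unfold Bad
  rw [Nat.mem_primeFactors]
  refine ⟨hq, ?_, R_ne P⟩
  have h1 : q ∣ ((2 : ℤ) ^ p - 3 ^ o).natAbs := Int.natCast_dvd.1 h
  have h2 : ((2 : ℤ) ^ p - 3 ^ o).natAbs ∣ ∏ o ∈ range (p + 1), ((2 : ℤ) ^ p - 3 ^ o).natAbs :=
    Finset.dvd_prod_of_mem (fun o => ((2 : ℤ) ^ p - 3 ^ o).natAbs) (mem_range.2 (by omega))
  have h3 : (∏ o ∈ range (p + 1), ((2 : ℤ) ^ p - 3 ^ o).natAbs) ∣ R P :=
    Finset.dvd_prod_of_mem (fun p => ∏ o ∈ range (p + 1), ((2 : ℤ) ^ p - 3 ^ o).natAbs)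
      (mem_Icc.2 ⟨hp, hpP⟩)
  exact h1.trans (h2.trans h3)

theorem card_large {P : ℕ} (hP : 1 ≤ P) {Y : ℝ} (hY : 1 ≤ Y) :
    (((Bad P).filter (fun q : ℕ => Y < (q : ℝ))).card : ℝ) * Real.log Y ≤ 3 * (P : ℝ) ^ 3 := by
  refine le_trans ?_ (log_R_le hP)
  have h1 : (∏ q ∈ Bad P, q) ≤ R P := Nat.le_of_dvd (Nat.pos_of_ne_zero (R_ne P)) (Nat.prod_primeFactors_dvd _)
  have h2 : (∏ q ∈ (Bad P).filter (fun q : ℕ => Y < (q : ℝ)), q) ≤ ∏ q ∈ Bad P, q := by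
    apply Finset.prod_le_prod_of_subset_of_one_le' (filter_subset _ _)
    intro q hq _
    exact (Nat.prime_of_mem_primeFactors hq).one_lt.le
  have h3 : Y ^ ((Bad P).filter (fun q : ℕ => Y < (q : ℝ))).card ≤
      ∏ q ∈ (Bad P).filter (fun q : ℕ => Y < (q : ℝ)), (q : ℝ) := by
    rw [← Finset.prod_const]
    apply Finset.prod_le_prod
    · intro q _; linarith
    · intro q hq
      exact (mem_filter.1 hq).2.le
  have h4 : Y ^ ((Bad P).filter (fun q : ℕ => Y < (q : ℝ))).card ≤ (R P : ℝ) := by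
    refine h3.trans ?_
    have h7 : (∏ q ∈ (Bad P).filter (fun q : ℕ => Y < (q : ℝ)), q) ≤ R P := h2.trans h1
    have h8 : ((∏ q ∈ (Bad P).filter (fun q : ℕ => Y < (q : ℝ)), q : ℕ) : ℝ) ≤ (R P : ℝ) := Nat.cast_le.2 h7
    rwa [Nat.cast_prod] at h8
  have h5 := Real.log_le_log (by positivity) h4
  rwa [Real.log_pow] at h5

theorem card_Bad {P : ℕ} (hP : 1 ≤ P) : ((Bad P).card : ℝ) ≤ 5 * (P : ℝ) ^ 3 := by
  have h1 : (∏ q ∈ Bad P, q) ≤ R P := Nat.le_of_dvd (Nat.pos_of_ne_zero (R_ne P)) (Nat.prod_primeFactors_dvd _)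
  have h3 : 2 ^ (Bad P).card ≤ ∏ q ∈ Bad P, q := by
    rw [← Finset.prod_const]
    apply Finset.prod_le_prod'
    intro q hq
    exact (Nat.prime_of_mem_primeFactors hq).two_le
  have h4 : (2 : ℝ) ^ (Bad P).card ≤ (R P : ℝ) := by exact_mod_cast h3.trans h1
  have h5 := Real.log_le_log (by positivity) h4
  rw [Real.log_pow] at h5
  have h6 := log_R_le hP
  have h7 : (0.69 : ℝ) < Real.log 2 := by linarith [Real.log_two_gt_d9]
  have h8 : (0 : ℝ) ≤ (P : ℝ) ^ 3 := by positivity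
  nlinarith

theorem card_Bad' {P : ℕ} (hP : 2 ≤ P) : ((Bad P).card : ℝ) ≤ 5 / 2 * (P : ℝ) ^ 3 / Real.log P := by
  classical
  have hP2 : (2 : ℝ) ≤ P := by exact_mod_cast hP
  have hlog : 0 < Real.log P := Real.log_pos (by linarith)
  have h1 := card_large (P := P) (by omega) (Y := (P : ℝ) ^ 2) (by nlinarith)
  rw [Real.log_pow] at h1
  have h2 : ((Bad P).filter (fun q : ℕ => ¬ ((P : ℝ) ^ 2 < (q : ℝ)))).card ≤ P ^ 2 := by
    have h3 : (Bad P).filter (fun q : ℕ => ¬ ((P : ℝ) ^ 2 < (q : ℝ))) ⊆ Icc 1 (P ^ 2) := by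
      intro q hq
      rw [mem_filter, not_lt] at hq
      rw [mem_Icc]
      refine ⟨(Nat.prime_of_mem_primeFactors hq.1).one_lt.le, ?_⟩
      exact_mod_cast hq.2
    have := Finset.card_le_card h3
    simpa using this
  have h3 := Finset.card_filter_add_card_filter_not (s := Bad P) (fun q : ℕ => (P : ℝ) ^ 2 < (q : ℝ))
  have h4 : ((Bad P).card : ℝ) = (((Bad P).filter (fun q : ℕ => (P : ℝ) ^ 2 < (q : ℝ))).card : ℝ) +
      (((Bad P).filter (fun q : ℕ => ¬ ((P : ℝ) ^ 2 < (q : ℝ)))).card : ℝ) := by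
    rw [← h3]; push_cast; ring
  have h5 : (((Bad P).filter (fun q : ℕ => ¬ ((P : ℝ) ^ 2 < (q : ℝ)))).card : ℝ) ≤ (P : ℝ) ^ 2 := by
    exact_mod_cast h2
  have h6 : Real.log P ≤ P := (Real.log_le_sub_one_of_pos (by linarith)).trans (by linarith)
  rw [le_div_iff₀ hlog, h4, add_mul]
  have h7 : (((Bad P).filter (fun q : ℕ => ¬ ((P : ℝ) ^ 2 < (q : ℝ)))).card : ℝ) * Real.log P ≤ (P : ℝ) ^ 2 * P :=
    mul_le_mul h5 h6 hlog.le (by positivity)
  push_cast at h1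
  nlinarith

/-- The congruence condition: if the orbit of `x` ends in a cycle with `p` elements and `q ^ a` divides `k` but
not `x`, then `q` divides `2 ^ p - 3 ^ o` for some `o ≤ p`. -/
theorem ends_dvd {k x : ℤ} (hk : IsCoprime k 6) {p : ℕ} (h : EndsIn k x p) {q a : ℕ} (hq : q.Prime)
    (hqa : (q : ℤ) ^ a ∣ k) (hx : ¬ (q : ℤ) ^ a ∣ x) : ∃ o : ℕ, o ≤ p ∧ (q : ℤ) ∣ 2 ^ p - 3 ^ o := by
  obtain ⟨hp, m, hm⟩ := h
  have hk2 : IsCoprime k 2 := by
    have : (6 : ℤ) = 2 * 3 := by norm_num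
    rw [this] at hk
    exact hk.of_mul_right_left
  have hk3 : IsCoprime k 3 := by
    have : (6 : ℤ) = 2 * 3 := by norm_num
    rw [this] at hk
    exact hk.of_mul_right_right
  have hodd : Odd k := by
    rw [← Int.not_even_iff_odd, even_iff_two_dvd]
    intro h2
    have := hk2.isUnit_of_dvd' h2 dvd_rfl
    norm_num [Int.isUnit_iff] at this
  have hd2 : IsCoprime ((q : ℤ) ^ a) 2 := hk2.of_isCoprime_of_dvd_left hqa
  have hd3 : IsCoprime ((q : ℤ) ^ a) 3 := hk3.of_isCoprime_of_dvd_left hqa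
  set y := (T k)^[m] x with hy
  have hyx : ¬ (q : ℤ) ^ a ∣ y := by
    rw [hy, dvd_iter hodd hqa hd2 hd3]; exact hx
  have hper : (T k)^[p] y = y := by
    rw [← hm]; exact Function.iterate_minimalPeriod
  obtain ⟨o, ho, N, hN⟩ := iter hodd p y
  refine ⟨o, ho, ?_⟩
  by_contra hcon
  rw [hper] at hN
  have h1 : ((2 : ℤ) ^ p - 3 ^ o) * y = k * N := by linarith
  have h2 : (q : ℤ) ^ a ∣ ((2 : ℤ) ^ p - 3 ^ o) * y := by
    rw [h1]; exact hqa.mul_right N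
  have h3 : IsCoprime ((q : ℤ) ^ a) ((2 : ℤ) ^ p - 3 ^ o) := by
    apply IsCoprime.pow_left
    exact (Nat.prime_iff_prime_int.1 hq).coprime_iff_not_dvd.2 hcon
  exact hyx (h3.dvd_of_dvd_mul_left h2)

end Pool.Agent.K9h56.SC
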