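import Mathlib
import Pool.Agent.K9h56.SC.Dyn

/-!
# Short cycles of the `3x+k` maps: prime `k`, and almost all `k`
-/

set_option autoImplicit false

namespace Pool.Agent.K9h56.SC

open Finset

theorem natAbs_fin (N : Finset ℕ) : ({k : ℤ | k.natAbs ∈ N}).Finite ∧
    ({k : ℤ | k.natAbs ∈ N}).ncard ≤ 2 * N.card := by
  classical
  have h1 : ({k : ℤ | k.natAbs ∈ N}) ⊆
      ((N.image (fun n : ℕ => (n : ℤ)) ∪ N.image (fun n : ℕ => -(n : ℤ)) : Finset ℤ) : Set ℤ) := by
    intro k hk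
    rw [Set.mem_ofPred_eq] at hk
    rw [Finset.mem_coe, Finset.mem_union, Finset.mem_image, Finset.mem_image]
    rcases Int.natAbs_eq k with h | h
    · left; exact ⟨k.natAbs, hk, h.symm⟩
    · right; exact ⟨k.natAbs, hk, h.symm⟩
  refine ⟨(Finset.finite_toSet _).subset h1, ?_⟩
  have h2 := Set.ncard_le_ncard h1 (Finset.finite_toSet _)
  rw [Set.ncard_coe_finset] at h2
  refine h2.trans ((Finset.card_union_le _ _).trans ?_)
  have h3 := Finset.card_image_le (s := N) (f := fun n : ℕ => (n : ℤ))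
  have h4 := Finset.card_image_le (s := N) (f := fun n : ℕ => -(n : ℤ))
  omega

/-- the primes `k` (up to sign) for which an orbit which does not consist of multiples of `k` ends in a cycle with
at most `P` elements -/
def PrimeExc (P : ℕ) : Set ℤ :=
  {k : ℤ | k.natAbs.Prime ∧ IsCoprime k 6 ∧ ∃ (x : ℤ) (p : ℕ), EndsIn k x p ∧ p ≤ P ∧ ¬ k ∣ x}

theorem primeExc_sub (P : ℕ) : PrimeExc P ⊆ {k : ℤ | k.natAbs ∈ Bad P} := by
  rintro k ⟨hq, hk, x, p, hx, hp, hkx⟩
  rw [Set.mem_ofPred_eq]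
  obtain ⟨o, ho, h⟩ := ends_dvd hk hx (a := 1) hq (by rw [pow_one]; exact Int.natAbs_dvd.2 dvd_rfl)
    (by rw [pow_one, Int.natAbs_dvd]; exact hkx)
  exact mem_Bad hq hx.1 hp ho h

theorem prime_case (P : ℕ) (hP : 2 ≤ P) : (PrimeExc P).Finite ∧
    ((PrimeExc P).ncard : ℝ) ≤ 5 * (P : ℝ) ^ 3 / Real.log P := by
  obtain ⟨h1, h2⟩ := natAbs_fin (Bad P)
  refine ⟨h1.subset (primeExc_sub P), ?_⟩
  have h3 := (Set.ncard_le_ncard (primeExc_sub P) h1).trans h2
  have h4 : ((PrimeExc P).ncard : ℝ) ≤ 2 * ((Bad P).card : ℝ) := by exact_mod_cast h3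
  refine h4.trans ?_
  have h5 := card_Bad' hP
  calc 2 * ((Bad P).card : ℝ) ≤ 2 * (5 / 2 * (P : ℝ) ^ 3 / Real.log P) := by linarith
    _ = 5 * (P : ℝ) ^ 3 / Real.log P := by ring

/-- the `k` for which the orbit of some `x` ends in a cycle with `p` elements although a prime power `q ^ a`,
`q > B p ^ 3 log (p + 1)`, divides `k` but not `x` -/
def Exc (B X : ℝ) : Set ℤ :=
  {k : ℤ | |(k : ℝ)| ≤ X ∧ IsCoprime k 6 ∧ ∃ (x : ℤ) (p : ℕ), EndsIn k x p ∧
    ∃ q : ℕ, q.Prime ∧ B * (p : ℝ) ^ 3 * Real.log (p + 1) < q ∧ ∃ a : ℕ, (q : ℤ) ^ a ∣ k ∧ ¬ (q : ℤ) ^ a ∣ x}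

theorem sum_inv_sq (n : ℕ) : ∑ j ∈ range n, 1 / ((j : ℝ) + 1) ^ 2 ≤ 2 := by
  have h : ∀ n : ℕ, 1 ≤ n → ∑ j ∈ range n, 1 / ((j : ℝ) + 1) ^ 2 ≤ 2 - 1 / (n : ℝ) := by
    intro n hn
    induction n, hn using Nat.le_induction with
    | base => norm_num
    | succ n hn ih =>
      rw [Finset.sum_range_succ]
      have h1 : (0 : ℝ) < n := by exact_mod_cast hn
      have h2 : 1 / ((n : ℝ) + 1) ^ 2 ≤ 1 / (n : ℝ) - 1 / ((n + 1 : ℕ) : ℝ) := by
        push_cast
        rw [div_sub_div _ _ h1.ne' (by positivity), div_le_div_iff₀ (by positivity) (by positivity)]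
        nlinarith
      linarith
  rcases Nat.eq_zero_or_pos n with h0 | h0
  · subst h0; simp
  · have := h n h0
    have h1 : (0 : ℝ) ≤ 1 / (n : ℝ) := by positivity
    linarith

noncomputable def Yj (B : ℝ) (j : ℕ) : ℝ := B * 8 ^ j * (j + 1) / 3

open Classical in
noncomputable def Sj (B : ℝ) (j : ℕ) : Finset ℕ := (Bad (2 ^ (j + 1))).filter (fun q : ℕ => Yj B j < (q : ℝ))

theorem Yj_ge {B : ℝ} (hB : 6 ≤ B) (j : ℕ) : 2 ^ (j + 1) * ((j : ℝ) + 1) ≤ Yj B j := by
  unfold Yj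
  have h1 : (2 : ℝ) ^ j ≤ 8 ^ j := pow_le_pow_left₀ (by norm_num) (by norm_num) j
  have h2 : (0 : ℝ) < 2 ^ j := by positivity
  have h3 : (0 : ℝ) ≤ (j : ℝ) := by positivity
  rw [pow_succ]
  have h4 : 6 * (8 : ℝ) ^ j ≤ B * 8 ^ j := by nlinarith
  have h5 : 6 * (2 : ℝ) ^ j ≤ B * 8 ^ j := by nlinarith
  have h6 : 6 * (2 : ℝ) ^ j * ((j : ℝ) + 1) ≤ B * 8 ^ j * (j + 1) := by
    apply mul_le_mul_of_nonneg_right h5; positivity
  linarith

theorem log_Yj {B : ℝ} (hB : 6 ≤ B) (j : ℕ) : ((j : ℝ) + 1) / 2 ≤ Real.log (Yj B j) := by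
  have h1 : (2 : ℝ) ^ (j + 1) ≤ Yj B j := by
    have := Yj_ge hB j
    have h3 : (0 : ℝ) ≤ (j : ℝ) := by positivity
    have h2 : (0 : ℝ) < 2 ^ (j + 1) := by positivity
    nlinarith
  have h2 := Real.log_le_log (by positivity) h1
  rw [Real.log_pow] at h2
  have h7 : (0.69 : ℝ) < Real.log 2 := by linarith [Real.log_two_gt_d9]
  push_cast at h2
  have h3 : (0 : ℝ) ≤ (j : ℝ) := by positivity
  nlinarith

theorem card_Sj {B : ℝ} (hB : 6 ≤ B) (j : ℕ) : ((Sj B j).card : ℝ) ≤ 48 * 8 ^ j / (j + 1) := by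
  have h0 : (1 : ℝ) ≤ Yj B j := by
    have := Yj_ge hB j
    have h3 : (0 : ℝ) ≤ (j : ℝ) := by positivity
    have h2 : (1 : ℝ) ≤ 2 ^ (j + 1) := one_le_pow₀ (by norm_num)
    nlinarith
  have h1 := card_large (P := 2 ^ (j + 1)) (Nat.one_le_two_pow) (Y := Yj B j) h0
  have h2 := log_Yj hB j
  have h3 : (0 : ℝ) < (j : ℝ) + 1 := by positivity
  rw [le_div_iff₀ h3]
  have h4 : ((Sj B j).card : ℝ) * (((j : ℝ) + 1) / 2) ≤ ((Sj B j).card : ℝ) * Real.log (Yj B j) :=
    mul_le_mul_of_nonneg_left h2 (by positivity)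
  have h5 : ((Sj B j).card : ℝ) * Real.log (Yj B j) ≤ 3 * ((2 ^ (j + 1) : ℕ) : ℝ) ^ 3 := by
    unfold Sj
    convert h1
  have h6 : ((2 ^ (j + 1) : ℕ) : ℝ) ^ 3 = 8 * 8 ^ j := by
    push_cast
    rw [← pow_mul, mul_comm (j + 1) 3, pow_mul]
    norm_num
    rw [pow_succ]; ring
  rw [h6] at h5
  linarith

theorem almost_all {ε : ℝ} (hε : 0 < ε) : ∃ B : ℝ, 0 < B ∧ ∀ X : ℝ, 1 ≤ X →
    (Exc B X).Finite ∧ ((Exc B X).ncard : ℝ) ≤ ε * X := by
  classical
  set B : ℝ := 576 / ε + 6 with hB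
  have hB6 : 6 ≤ B := by rw [hB]; have : 0 < 576 / ε := by positivity
                         linarith
  refine ⟨B, by linarith, fun X hX => ?_⟩
  set n := ⌊X⌋₊ with hn
  set N : Finset ℕ := (range (n + 1)).biUnion (fun j => (Sj B j).biUnion
    (fun q => (Ioc 0 n).filter (fun m => q ∣ m))) with hN
  have hsub : Exc B X ⊆ {k : ℤ | k.natAbs ∈ N} := by
    rintro k ⟨hkX, hk, x, p, hx, q, hq, hqB, a, hqa, hqx⟩
    rw [Set.mem_ofPred_eq, hN, mem_biUnion]
    have hk0 : k ≠ 0 := by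
      rintro rfl
      have := isCoprime_zero_left.1 hk
      norm_num [Int.isUnit_iff] at this
    have ha : a ≠ 0 := by
      rintro rfl
      simp at hqx
    have hqk : (q : ℤ) ∣ k := (dvd_pow_self _ ha).trans hqa
    have hqk' : q ∣ k.natAbs := Int.natCast_dvd.1 hqk
    have hkn : k.natAbs ≤ n := by
      rw [hn]
      apply Nat.le_floor
      rw [Nat.cast_natAbs, Int.cast_abs]
      exact hkX
    have hk1 : 0 < k.natAbs := Int.natAbs_pos.2 hk0
    obtain ⟨o, ho, hd⟩ := ends_dvd hk hx hq hqa hqx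
    have hp : 1 ≤ p := hx.1
    set j := Nat.log 2 p with hj
    have hj1 : 2 ^ j ≤ p := Nat.pow_log_le_self 2 (by omega)
    have hj2 : p < 2 ^ (j + 1) := Nat.lt_pow_succ_log_self (by norm_num) p
    have hYq : Yj B j < (q : ℝ) := by
      refine lt_of_le_of_lt ?_ hqB
      unfold Yj
      have h1 : (2 : ℝ) ^ j ≤ p := by exact_mod_cast hj1
      have h2 : (8 : ℝ) ^ j ≤ (p : ℝ) ^ 3 := by
        have := pow_le_pow_left₀ (by positivity) h1 3
        rw [← pow_mul, mul_comm j 3, pow_mul] at this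
        norm_num at this
        exact this
      have h3 : ((j : ℝ) + 1) / 3 ≤ Real.log (p + 1) := by
        have h7 : (0.69 : ℝ) < Real.log 2 := by linarith [Real.log_two_gt_d9]
        rcases Nat.eq_zero_or_pos j with h0 | h0
        · rw [h0]
          have hp1 : (1 : ℝ) ≤ p := by exact_mod_cast hp
          have := Real.log_le_log (by norm_num) (show (2 : ℝ) ≤ p + 1 by linarith)
          norm_num
          linarith
        · have h8 : (1 : ℝ) ≤ j := by exact_mod_cast h0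
          have := Real.log_le_log (by positivity) (show (2 : ℝ) ^ j ≤ p + 1 by linarith)
          rw [Real.log_pow] at this
          nlinarith
      have h4 : B * 8 ^ j * (j + 1) / 3 = B * 8 ^ j * (((j : ℝ) + 1) / 3) := by ring
      rw [h4]
      apply mul_le_mul _ h3 (by positivity) (by positivity)
      exact mul_le_mul_of_nonneg_left h2 (by linarith)
    have hqn : q ≤ n := (Nat.le_of_dvd hk1 hqk').trans hkn
    refine ⟨j, ?_, ?_⟩
    · rw [mem_range]
      have h1 := Yj_ge hB6 j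
      have h2 : (j : ℝ) < n + 1 := by
        have h3 : (q : ℝ) ≤ n := by exact_mod_cast hqn
        have h4 : (1 : ℝ) ≤ 2 ^ (j + 1) := one_le_pow₀ (by norm_num)
        have h5 : (0 : ℝ) ≤ (j : ℝ) := by positivity
        nlinarith
      exact_mod_cast h2
    · rw [mem_biUnion]
      refine ⟨q, ?_, ?_⟩
      · unfold Sj
        rw [mem_filter]
        exact ⟨mem_Bad hq hp hj2.le ho hd, hYq⟩
      · rw [mem_filter, mem_Ioc]
        exact ⟨⟨hk1, hkn⟩, hqk'⟩
  have hcard : ((N.card : ℕ) : ℝ) ≤ 288 * X / B := by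
    have h1 : N.card ≤ ∑ j ∈ range (n + 1), ∑ q ∈ Sj B j, ((Ioc 0 n).filter (fun m => q ∣ m)).card :=
      Finset.card_biUnion_le.trans (Finset.sum_le_sum fun j _ => Finset.card_biUnion_le)
    have h2 : ((N.card : ℕ) : ℝ) ≤ ∑ j ∈ range (n + 1), ∑ q ∈ Sj B j,
        (((Ioc 0 n).filter (fun m => q ∣ m)).card : ℝ) := by exact_mod_cast h1
    refine h2.trans ?_
    have h3 : ∀ j ∈ range (n + 1), ∑ q ∈ Sj B j, (((Ioc 0 n).filter (fun m => q ∣ m)).card : ℝ) ≤
        144 * X / B * (1 / ((j : ℝ) + 1) ^ 2) := by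
      intro j _
      have hY : (0 : ℝ) < Yj B j := by unfold Yj; positivity
      calc ∑ q ∈ Sj B j, (((Ioc 0 n).filter (fun m => q ∣ m)).card : ℝ) ≤ ∑ q ∈ Sj B j, X / Yj B j := by
            apply Finset.sum_le_sum
            intro q hq
            have hq2 : Yj B j < (q : ℝ) := by
              unfold Sj at hq
              exact (mem_filter.1 hq).2
            rw [Nat.Ioc_filter_dvd_card_eq_div]
            refine (Nat.cast_div_le).trans ?_
            apply div_le_div₀ (by linarith) (by rw [hn]; exact Nat.floor_le (by linarith)) hY hq2.le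
        _ = ((Sj B j).card : ℝ) * (X / Yj B j) := by rw [Finset.sum_const, nsmul_eq_mul]
        _ ≤ (48 * 8 ^ j / (j + 1)) * (X / Yj B j) := by
            apply mul_le_mul_of_nonneg_right (card_Sj hB6 j); positivity
        _ = 144 * X / B * (1 / ((j : ℝ) + 1) ^ 2) := by
            unfold Yj
            have h8 : (8 : ℝ) ^ j ≠ 0 := by positivity
            have hB0 : B ≠ 0 := by linarith
            have hj0 : (j : ℝ) + 1 ≠ 0 := by positivity
            field_simp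
            ring
    refine (Finset.sum_le_sum h3).trans ?_
    rw [← Finset.mul_sum]
    have h4 := sum_inv_sq (n + 1)
    have h5 : 0 ≤ 144 * X / B := by positivity
    calc 144 * X / B * ∑ j ∈ range (n + 1), 1 / ((j : ℝ) + 1) ^ 2 ≤ 144 * X / B * 2 :=
          mul_le_mul_of_nonneg_left h4 h5
      _ = 288 * X / B := by ring
  obtain ⟨hf, hc⟩ := natAbs_fin N
  refine ⟨hf.subset hsub, ?_⟩
  have h1 := (Set.ncard_le_ncard hsub hf).trans hc
  have h2 : ((Exc B X).ncard : ℝ) ≤ 2 * (N.card : ℝ) := by exact_mod_cast h1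
  have hB0 : 0 < B := by linarith
  calc ((Exc B X).ncard : ℝ) ≤ 2 * (N.card : ℝ) := h2
    _ ≤ 2 * (288 * X / B) := by linarith
    _ = 576 * X / B := by ring
    _ ≤ ε * X := by
        rw [div_le_iff₀ hB0]
        have h3 : ε * B = 576 + 6 * ε := by
          rw [hB]; field_simp
        have : ε * X * B = (576 + 6 * ε) * X := by rw [← h3]; ring
        rw [this]
        nlinarith

end Pool.Agent.K9h56.SC
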