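import Mathlib
import Pool.Agent.Erdos456.Mertens
import Pool.Agent.K9h56.SC.Count

/-!
# Short cycles of the `3x+k` maps: the greatest common divisor with `k`
-/

set_option autoImplicit false

namespace Pool.Agent.K9h56.SC

open Finset Filter

/-- the `k` for which the orbit of some `x` with `gcd (x, k) < X ^ (1 - δ)` ends in a cycle with at most `X ^ η`
elements -/
def GcdExc (δ η X : ℝ) : Set ℤ :=
  {k : ℤ | |(k : ℝ)| ≤ X ∧ IsCoprime k 6 ∧ ∃ (x : ℤ) (p : ℕ), EndsIn k x p ∧ (p : ℝ) ≤ X ^ η ∧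
    (Int.gcd x k : ℝ) < X ^ (1 - δ)}

/-- the logarithm of the part of `m` composed of primes `≤ y` -/
noncomputable def ff (y m : ℕ) : ℝ := ∑ q ∈ (Icc 1 y).filter Nat.Prime, (m.factorization q : ℝ) * Real.log q

theorem ff_nonneg (y m : ℕ) : 0 ≤ ff y m := by
  unfold ff
  apply Finset.sum_nonneg
  intro q hq
  have : 0 ≤ Real.log q := Real.log_natCast_nonneg q
  positivity

theorem sum_fact (n q : ℕ) (hq : q.Prime) :
    (∑ m ∈ Ioc 0 n, (m.factorization q : ℝ)) ≤ 2 * n / q := by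
  have : Fact q.Prime := ⟨hq⟩
  have h1 : ∑ m ∈ Ioc 0 n, m.factorization q = (n.factorial).factorization q := by
    induction n with
    | zero => simp
    | succ n ih =>
      rw [Nat.factorial_succ, Nat.factorization_mul (by omega) (Nat.factorial_ne_zero n)]
      rw [Finset.sum_Ioc_succ_top (by omega), ih]
      simp [add_comm]
  have h2 := sub_one_mul_padicValNat_factorial (p := q) n
  rw [← Nat.factorization_def _ hq, ← h1] at h2
  have h3 : (q - 1) * (∑ m ∈ Ioc 0 n, m.factorization q) ≤ n := by rw [h2]; exact Nat.sub_le _ _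
  have h4 : ((q : ℝ) - 1) * (∑ m ∈ Ioc 0 n, (m.factorization q : ℝ)) ≤ n := by
    have h5 : (((q - 1) * (∑ m ∈ Ioc 0 n, m.factorization q) : ℕ) : ℝ) ≤ (n : ℝ) := by exact_mod_cast h3
    rw [Nat.cast_mul, Nat.cast_sub hq.one_lt.le, Nat.cast_sum] at h5
    simpa using h5
  have h5 : (2 : ℝ) ≤ q := by exact_mod_cast hq.two_le
  have h6 : 0 ≤ ∑ m ∈ Ioc 0 n, (m.factorization q : ℝ) := Finset.sum_nonneg fun m _ => by positivity
  rw [le_div_iff₀ (by linarith)]
  nlinarith

theorem sum_ff : ∃ C : ℝ, 0 ≤ C ∧ ∀ n y : ℕ, 1 ≤ y →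
    ∑ m ∈ Ioc 0 n, ff y m ≤ 2 * n * (Real.log y + C) := by
  obtain ⟨C, hC⟩ := Pool.Agent.Erdos456.Mert.mertens_log
  refine ⟨max C 0, le_max_right _ _, fun n y hy => ?_⟩
  unfold ff
  rw [Finset.sum_comm]
  calc ∑ q ∈ (Icc 1 y).filter Nat.Prime, ∑ m ∈ Ioc 0 n, (m.factorization q : ℝ) * Real.log q
      ≤ ∑ q ∈ (Icc 1 y).filter Nat.Prime, 2 * n * (Real.log q / q) := by
        apply Finset.sum_le_sum
        intro q hq
        have hq' := (mem_filter.1 hq).2
        rw [← Finset.sum_mul]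
        have h1 := sum_fact n q hq'
        have h2 : 0 ≤ Real.log q := Real.log_natCast_nonneg q
        calc (∑ m ∈ Ioc 0 n, (m.factorization q : ℝ)) * Real.log q ≤ (2 * n / q) * Real.log q :=
              mul_le_mul_of_nonneg_right h1 h2
          _ = 2 * n * (Real.log q / q) := by ring
    _ = 2 * n * ∑ q ∈ (Icc 1 y).filter Nat.Prime, (Real.log q / q) := by rw [Finset.mul_sum]
    _ ≤ 2 * n * (Real.log y + max C 0) := by
        apply mul_le_mul_of_nonneg_left _ (by positivity)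
        have h1 := (abs_le.1 (hC y hy)).2
        have h2 := le_max_left C 0
        linarith

theorem markov {C : ℝ} {n y : ℕ} (h : ∑ m ∈ Ioc 0 n, ff y m ≤ 2 * n * (Real.log y + C)) (t : ℝ) :
    (((Ioc 0 n).filter (fun m => t < ff y m)).card : ℝ) * t ≤ 2 * n * (Real.log y + C) := by
  refine le_trans ?_ h
  calc (((Ioc 0 n).filter (fun m => t < ff y m)).card : ℝ) * t
      = ∑ m ∈ (Ioc 0 n).filter (fun m => t < ff y m), t := by rw [Finset.sum_const, nsmul_eq_mul]
    _ ≤ ∑ m ∈ (Ioc 0 n).filter (fun m => t < ff y m), ff y m :=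
        Finset.sum_le_sum fun m hm => (mem_filter.1 hm).2.le
    _ ≤ ∑ m ∈ Ioc 0 n, ff y m :=
        Finset.sum_le_sum_of_subset_of_nonneg (filter_subset _ _) fun m _ _ => ff_nonneg y m

/-- if `q ^ v_q (k)` divides `x` for all primes `q > y`, then `k / gcd (x, k)` is composed of primes `≤ y` -/
theorem gcd_large {k x : ℤ} (hk : k ≠ 0) {y : ℕ}
    (h : ∀ q : ℕ, q.Prime → y < q → ∀ a : ℕ, (q : ℤ) ^ a ∣ k → (q : ℤ) ^ a ∣ x) :
    Real.log k.natAbs - Real.log (Int.gcd x k) ≤ ff y k.natAbs := by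
  set m := k.natAbs with hm
  have hm0 : m ≠ 0 := by rw [hm]; exact Int.natAbs_ne_zero.2 hk
  set d := Int.gcd x k with hd
  have hdm : d ∣ m := by
    rw [hd, hm]
    exact Int.natCast_dvd.1 (Int.gcd_dvd_right x k)
  obtain ⟨e, he⟩ := hdm
  have hd0 : d ≠ 0 := by rintro h0; rw [h0, zero_mul] at he; exact hm0 he
  have he0 : e ≠ 0 := by rintro h0; rw [h0, mul_zero] at he; exact hm0 he
  have h1 : Real.log m = Real.log d + Real.log e := by
    rw [he, Nat.cast_mul, Real.log_mul (by exact_mod_cast hd0) (by exact_mod_cast he0)]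
  rw [h1, add_sub_cancel_left, Real.log_nat_eq_sum_factorization, Finsupp.sum]
  unfold ff
  have hsupp : e.factorization.support ⊆ (Icc 1 y).filter Nat.Prime := by
    intro q hq
    rw [Nat.support_factorization, Nat.mem_primeFactors] at hq
    obtain ⟨hq1, hq2, _⟩ := hq
    rw [mem_filter, mem_Icc]
    refine ⟨⟨hq1.one_lt.le, ?_⟩, hq1⟩
    by_contra hcon
    rw [not_le] at hcon
    set a := m.factorization q with ha
    have h2 : q ^ a ∣ m := Nat.ordProj_dvd m q
    have h3 : (q : ℤ) ^ a ∣ k := by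
      have : ((q ^ a : ℕ) : ℤ) ∣ k := Int.natCast_dvd.2 h2
      rwa [Nat.cast_pow] at this
    have h4 := h q hq1 hcon a h3
    have h5 : q ^ a ∣ d := by
      have : ((q ^ a : ℕ) : ℤ) ∣ (d : ℤ) := by
        rw [hd, Nat.cast_pow]
        exact Int.dvd_coe_gcd h4 h3
      exact_mod_cast this
    have h6 : q ^ (a + 1) ∣ m := by
      rw [he, pow_succ]
      exact mul_dvd_mul h5 hq2
    have h7 := (hq1.pow_dvd_iff_le_factorization hm0).1 h6
    omega
  refine (Finset.sum_le_sum_of_subset_of_nonneg hsupp fun q _ _ => ?_).trans ?_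
  · have : 0 ≤ Real.log q := Real.log_natCast_nonneg q
    positivity
  · apply Finset.sum_le_sum
    intro q _
    apply mul_le_mul_of_nonneg_right _ (Real.log_natCast_nonneg q)
    have h2 : e.factorization q ≤ m.factorization q := by
      have : e ∣ m := ⟨d, by rw [he, mul_comm]⟩
      exact (Nat.factorization_le_iff_dvd he0 hm0).2 this q
    exact_mod_cast h2

theorem gcd_case {ε δ : ℝ} (hε : 0 < ε) (hδ : 0 < δ) : ∃ η : ℝ, 0 < η ∧ ∀ᶠ X : ℝ in atTop,
    (GcdExc δ η X).Finite ∧ ((GcdExc δ η X).ncard : ℝ) ≤ ε * X := by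
  classical
  obtain ⟨B, hB, hExc⟩ := almost_all (ε := ε / 4) (by positivity)
  obtain ⟨C, hC0, hC⟩ := sum_ff
  set η : ℝ := ε * δ / 320 with hη
  have hη0 : 0 < η := by positivity
  refine ⟨η, hη0, ?_⟩
  have ev1 : ∀ᶠ X : ℝ in atTop, B + 1 ≤ X ^ η := (tendsto_rpow_atTop hη0).eventually_ge_atTop _
  have ev2 : ∀ᶠ X : ℝ in atTop, 8 / ε ≤ X ^ (δ / 2) :=
    (tendsto_rpow_atTop (by positivity)).eventually_ge_atTop _
  have ev3 : ∀ᶠ X : ℝ in atTop, 64 * C / (δ * ε) + 1 ≤ Real.log X :=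
    Real.tendsto_log_atTop.eventually_ge_atTop _
  filter_upwards [ev1, ev2, ev3, eventually_ge_atTop (1 : ℝ)] with X h1 h2 h3 hX
  have hX0 : (0 : ℝ) < X := by linarith
  obtain ⟨hf1, hc1⟩ := hExc X hX
  set n := ⌊X⌋₊ with hn
  set y := ⌊X ^ (5 * η)⌋₊ with hy
  set t := δ / 2 * Real.log X with ht
  set N2 : Finset ℕ := (Ioc 0 n).filter (fun m => t < ff y m) with hN2
  set N3 : Finset ℕ := Ioc 0 ⌊X ^ (1 - δ / 2)⌋₊ with hN3
  have hy1 : 1 ≤ y := by
    rw [hy]
    apply Nat.le_floor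
    rw [Nat.cast_one]
    exact Real.one_le_rpow hX (by positivity)
  have hlogX : 0 < Real.log X := by
    have : 0 ≤ 64 * C / (δ * ε) := by positivity
    linarith
  have hsub : GcdExc δ η X ⊆ Exc B X ∪ ({k : ℤ | k.natAbs ∈ N2} ∪ {k : ℤ | k.natAbs ∈ N3}) := by
    rintro k ⟨hkX, hk, x, p, hx, hp, hg⟩
    by_contra hcon
    rw [Set.mem_union, Set.mem_union, not_or, not_or] at hcon
    obtain ⟨hE, h4, h5⟩ := hcon
    have hk0 : k ≠ 0 := by
      rintro rfl
      have := isCoprime_zero_left.1 hk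
      norm_num [Int.isUnit_iff] at this
    have hk1 : 0 < k.natAbs := Int.natAbs_pos.2 hk0
    have hkR : ((k.natAbs : ℕ) : ℝ) = |(k : ℝ)| := by rw [Nat.cast_natAbs, Int.cast_abs]
    have hkn : k.natAbs ≤ n := by
      rw [hn]
      apply Nat.le_floor
      rw [hkR]
      exact hkX
    have h4' : ff y k.natAbs ≤ t := by
      by_contra h6
      rw [not_le] at h6
      exact h4 (by rw [Set.mem_ofPred_eq, hN2, mem_filter, mem_Ioc]; exact ⟨⟨hk1, hkn⟩, h6⟩)
    have h5' : X ^ (1 - δ / 2) < (k.natAbs : ℝ) := by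
      by_contra h6
      rw [not_lt] at h6
      exact h5 (by rw [Set.mem_ofPred_eq, hN3, mem_Ioc]; exact ⟨hk1, Nat.le_floor h6⟩)
    have h6 : ∀ q : ℕ, q.Prime → y < q → ∀ a : ℕ, (q : ℤ) ^ a ∣ k → (q : ℤ) ^ a ∣ x := by
      intro q hq hyq a ha
      by_contra hax
      apply hE
      refine ⟨hkX, hk, x, p, hx, q, hq, ?_, a, ha, hax⟩
      have h7 : X ^ (5 * η) < q := by
        rw [hy] at hyq
        exact (Nat.floor_lt (by positivity)).1 hyq
      refine lt_of_le_of_lt ?_ h7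
      have hp0 : (0 : ℝ) < p := by exact_mod_cast hx.1
      have h8 : Real.log (p + 1) ≤ p := by
        have := Real.log_le_sub_one_of_pos (show (0 : ℝ) < (p : ℝ) + 1 by linarith)
        linarith
      have h9 : X ^ (5 * η) = X ^ η * (X ^ η) ^ (4 : ℕ) := by
        rw [← Real.rpow_natCast (X ^ η) 4, ← Real.rpow_mul hX0.le, ← Real.rpow_add hX0]
        congr 1
        push_cast
        ring
      rw [h9]
      have h10 : B ≤ X ^ η := by linarith
      calc B * (p : ℝ) ^ 3 * Real.log (p + 1) ≤ B * (p : ℝ) ^ 3 * p :=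
            mul_le_mul_of_nonneg_left h8 (by positivity)
        _ = B * (p : ℝ) ^ 4 := by ring
        _ ≤ X ^ η * (X ^ η) ^ (4 : ℕ) := by
            apply mul_le_mul h10 _ (by positivity) (by positivity)
            exact pow_le_pow_left₀ hp0.le hp 4
    have h7 := gcd_large hk0 h6
    have hg0 : 0 < Int.gcd x k := Int.gcd_pos_of_ne_zero_right x hk0
    have hg1 : (0 : ℝ) < (Int.gcd x k : ℝ) := by exact_mod_cast hg0
    have h8 : Real.log (Int.gcd x k) < (1 - δ) * Real.log X := by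
      have := Real.log_lt_log hg1 hg
      rwa [Real.log_rpow hX0] at this
    have h9 : (1 - δ / 2) * Real.log X < Real.log k.natAbs := by
      have := Real.log_lt_log (by positivity) h5'
      rwa [Real.log_rpow hX0] at this
    rw [ht] at h4'
    nlinarith
  obtain ⟨hf2, hc2⟩ := natAbs_fin N2
  obtain ⟨hf3, hc3⟩ := natAbs_fin N3
  have hfin : (Exc B X ∪ ({k : ℤ | k.natAbs ∈ N2} ∪ {k : ℤ | k.natAbs ∈ N3})).Finite :=
    hf1.union (hf2.union hf3)
  refine ⟨hfin.subset hsub, ?_⟩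
  have hc : (GcdExc δ η X).ncard ≤ (Exc B X).ncard + (2 * N2.card + 2 * N3.card) := by
    refine (Set.ncard_le_ncard hsub hfin).trans ((Set.ncard_union_le _ _).trans ?_)
    have := Set.ncard_union_le {k : ℤ | k.natAbs ∈ N2} {k : ℤ | k.natAbs ∈ N3}
    omega
  have hc' : ((GcdExc δ η X).ncard : ℝ) ≤ ((Exc B X).ncard : ℝ) + (2 * (N2.card : ℝ) + 2 * (N3.card : ℝ)) := by
    exact_mod_cast hc
  have hN3c : (N3.card : ℝ) ≤ ε / 8 * X := by
    rw [hN3, Nat.card_Ioc, Nat.sub_zero]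
    refine (Nat.floor_le (by positivity)).trans ?_
    have h4 : X ^ (1 - δ / 2) * X ^ (δ / 2) = X := by
      rw [← Real.rpow_add hX0]; ring_nf; exact Real.rpow_one X
    have h5 : 0 < X ^ (1 - δ / 2) := by positivity
    have h6 : X ^ (1 - δ / 2) * (8 / ε) ≤ X := by
      calc X ^ (1 - δ / 2) * (8 / ε) ≤ X ^ (1 - δ / 2) * X ^ (δ / 2) :=
            mul_le_mul_of_nonneg_left h2 h5.le
        _ = X := h4
    have h7 : X ^ (1 - δ / 2) * (8 / ε) = X ^ (1 - δ / 2) * 8 / ε := by ring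
    rw [h7, div_le_iff₀ hε] at h6
    linarith
  have hN2c : (N2.card : ℝ) ≤ ε / 8 * X := by
    have h4 := markov (hC n y hy1) t
    rw [← hN2] at h4
    have h5 : Real.log y ≤ 5 * η * Real.log X := by
      have h6 : (y : ℝ) ≤ X ^ (5 * η) := by rw [hy]; exact Nat.floor_le (by positivity)
      have h7 := Real.log_le_log (by exact_mod_cast hy1) h6
      rwa [Real.log_rpow hX0] at h7
    have h6 : (n : ℝ) ≤ X := by rw [hn]; exact Nat.floor_le hX0.le
    have h7 : (N2.card : ℝ) * t ≤ 2 * X * (5 * η * Real.log X + C) := by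
      refine h4.trans ?_
      have h8 : 0 ≤ Real.log y := Real.log_natCast_nonneg y
      apply mul_le_mul (by linarith) (by linarith) (by linarith) (by positivity)
    have h8 : C ≤ δ * ε / 64 * Real.log X := by
      have h9 : 64 * C / (δ * ε) ≤ Real.log X := by linarith
      rw [div_le_iff₀ (by positivity)] at h9
      linarith
    have h9 : 5 * η * Real.log X + C ≤ δ / 2 * Real.log X * (ε / 16) := by
      rw [hη]
      have : 5 * (ε * δ / 320) * Real.log X + δ * ε / 64 * Real.log X = δ / 2 * Real.log X * (ε / 16) := by ring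
      linarith
    have h10 : (N2.card : ℝ) * t ≤ (ε / 8 * X) * t := by
      refine h7.trans ?_
      calc 2 * X * (5 * η * Real.log X + C) ≤ 2 * X * (δ / 2 * Real.log X * (ε / 16)) :=
            mul_le_mul_of_nonneg_left h9 (by positivity)
        _ = (ε / 8 * X) * t := by rw [ht]; ring
    have ht0 : 0 < t := by rw [ht]; positivity
    exact le_of_mul_le_mul_right h10 ht0
  linarith

end Pool.Agent.K9h56.SC
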