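import Mathlib
import Pool.Agent.K9h56.SC.Count

/-!
# Short cycles of the `3x+k` maps: primitive cycles of polylogarithmic length
-/

set_option autoImplicit false

namespace Pool.Agent.K9h56.SC

open Finset Filter

/-- the `k` for which the orbit of some `x` prime to `k` ends in a cycle with at most `(log X) ^ A` elements -/
def PrimExc (A X : ℝ) : Set ℤ :=
  {k : ℤ | |(k : ℝ)| ≤ X ∧ IsCoprime k 6 ∧ ∃ (x : ℤ) (p : ℕ), EndsIn k x p ∧ (p : ℝ) ≤ (Real.log X) ^ A ∧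
    IsCoprime x k}

/-- the function `m ↦ m ^ (-σ)` -/
noncomputable def pw (σ : ℝ) : ℕ →* ℝ where
  toFun m := (m : ℝ) ^ (-σ)
  map_one' := by simp
  map_mul' a b := by
    rw [Nat.cast_mul, Real.mul_rpow (by positivity) (by positivity)]

theorem pw_apply (σ : ℝ) (m : ℕ) : pw σ m = (m : ℝ) ^ (-σ) := rfl

theorem pw_nonneg (σ : ℝ) (m : ℕ) : 0 ≤ pw σ m := by rw [pw_apply]; positivity

theorem pw_lt {σ : ℝ} (hσ : 1 / 2 ≤ σ) {q : ℕ} (hq : 2 ≤ q) : pw σ q ≤ 3 / 4 := by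
  rw [pw_apply]
  have h1 : (2 : ℝ) ≤ q := by exact_mod_cast hq
  calc (q : ℝ) ^ (-σ) ≤ (2 : ℝ) ^ (-σ) := by
        apply Real.rpow_le_rpow_of_nonpos (by norm_num) h1 (by linarith)
    _ ≤ (2 : ℝ) ^ (-(1 / 2) : ℝ) := Real.rpow_le_rpow_of_exponent_le (by norm_num) (by linarith)
    _ ≤ 3 / 4 := by
        rw [Real.rpow_neg (by norm_num), inv_le_comm₀ (by positivity) (by norm_num)]
        have h2 : ((3 / 4 : ℝ))⁻¹ ^ 2 ≤ 2 := by norm_num
        have h3 : (2 : ℝ) ^ (1 / 2 : ℝ) = Real.sqrt 2 := (Real.sqrt_eq_rpow 2).symm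
        rw [h3]
        exact Real.le_sqrt_of_sq_le h2

theorem factor_le {t : ℝ} (h0 : 0 ≤ t) (h1 : t ≤ 3 / 4) : (1 - t)⁻¹ ≤ Real.exp (4 * t) := by
  have h2 : 0 < 1 - t := by linarith
  have h3 : (1 - t)⁻¹ = t / (1 - t) + 1 := by field_simp; ring
  rw [h3]
  refine (Real.add_one_le_exp _).trans (Real.exp_le_exp.2 ?_)
  rw [div_le_iff₀ h2]
  nlinarith

/-- Rankin's bound for the number of `m ≤ X` composed of primes of a finite set `S` -/
theorem rankin {σ : ℝ} (hσ : 1 / 2 ≤ σ) {S : Finset ℕ} (hS : ∀ q ∈ S, q.Prime) {X : ℝ} (hX : 1 ≤ X) (M : Finset ℕ)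
    (hM : ∀ m ∈ M, m ≠ 0 ∧ (m : ℝ) ≤ X ∧ ∀ q : ℕ, q.Prime → q ∣ m → q ∈ S) :
    (M.card : ℝ) ≤ X ^ σ * Real.exp (4 * ∑ q ∈ S, (q : ℝ) ^ (-σ)) := by
  classical
  have hlt : ∀ {p : ℕ}, p.Prime → ‖pw σ p‖ < 1 := by
    intro p hp
    rw [Real.norm_of_nonneg (pw_nonneg σ p)]
    have := pw_lt hσ hp.two_le
    linarith
  obtain ⟨hs, hsum⟩ := EulerProduct.summable_and_hasSum_factoredNumbers_prod_filter_prime_geometric hlt S
  have hMS : ∀ m ∈ M, m ∈ Nat.factoredNumbers S := by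
    intro m hm
    apply Nat.mem_factoredNumbers_of_primeFactors_subset (hM m hm).1
    intro q hq
    rw [Nat.mem_primeFactors] at hq
    exact (hM m hm).2.2 q hq.1 hq.2.1
  have h1 : ∑ m ∈ M.attach, pw σ m.1 ≤ ∏ p ∈ S with p.Prime, (1 - pw σ p)⁻¹ := by
    rw [← hsum.tsum_eq]
    have h2 : ∑ m ∈ M.attach.map ⟨fun m : M => (⟨m.1, hMS m.1 m.2⟩ : Nat.factoredNumbers S), by
        intro a b hab
        apply Subtype.ext
        exact congrArg (fun z : Nat.factoredNumbers S => (z : ℕ)) hab⟩, pw σ (m : ℕ) ≤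
        ∑' m : Nat.factoredNumbers S, pw σ (m : ℕ) :=
      hsum.summable.sum_le_tsum _ fun m _ => pw_nonneg σ _
    rw [Finset.sum_map] at h2
    exact h2
  rw [Finset.sum_attach M (fun m => pw σ m)] at h1
  have h2 : ∏ p ∈ S with p.Prime, (1 - pw σ p)⁻¹ ≤ Real.exp (4 * ∑ q ∈ S, (q : ℝ) ^ (-σ)) := by
    rw [Finset.filter_true_of_mem hS, Finset.mul_sum, Real.exp_sum]
    apply Finset.prod_le_prod
    · intro q hq
      have := pw_lt hσ (hS q hq).two_le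
      rw [inv_nonneg]; linarith
    · intro q hq
      exact factor_le (pw_nonneg σ q) (pw_lt hσ (hS q hq).two_le)
  have h3 : (M.card : ℝ) ≤ X ^ σ * ∑ m ∈ M, pw σ m := by
    rw [Finset.mul_sum]
    calc (M.card : ℝ) = ∑ m ∈ M, (1 : ℝ) := by simp
      _ ≤ ∑ m ∈ M, X ^ σ * pw σ m := by
          apply Finset.sum_le_sum
          intro m hm
          obtain ⟨hm0, hmX, _⟩ := hM m hm
          have hm1 : (0 : ℝ) < m := by exact_mod_cast Nat.pos_of_ne_zero hm0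
          rw [pw_apply, Real.rpow_neg hm1.le, ← div_eq_mul_inv, ← Real.div_rpow (by linarith) hm1.le]
          apply Real.one_le_rpow _ (by linarith)
          rw [le_div_iff₀ hm1]; linarith
  calc (M.card : ℝ) ≤ X ^ σ * ∑ m ∈ M, pw σ m := h3
    _ ≤ X ^ σ * Real.exp (4 * ∑ q ∈ S, (q : ℝ) ^ (-σ)) := by
        apply mul_le_mul_of_nonneg_left (h1.trans h2) (by positivity)

theorem sum_rpow_le {σ Z : ℝ} (hσ0 : 0 ≤ σ) (hσ1 : σ ≤ 1) (hZ : 1 ≤ Z) {S : Finset ℕ} (hS : ∀ q ∈ S, 1 ≤ q)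
    (hc : (S.card : ℝ) ≤ Z) : ∑ q ∈ S, (q : ℝ) ^ (-σ) ≤ Z ^ (1 - σ) * (2 + Real.log Z) := by
  classical
  have hZ0 : 0 < Z := by linarith
  rw [← Finset.sum_filter_add_sum_filter_not S (fun q : ℕ => (q : ℝ) ≤ Z)]
  have h1 : ∑ q ∈ S.filter (fun q : ℕ => (q : ℝ) ≤ Z), (q : ℝ) ^ (-σ) ≤ Z ^ (1 - σ) * (1 + Real.log Z) := by
    calc ∑ q ∈ S.filter (fun q : ℕ => (q : ℝ) ≤ Z), (q : ℝ) ^ (-σ)
        ≤ ∑ q ∈ S.filter (fun q : ℕ => (q : ℝ) ≤ Z), Z ^ (1 - σ) * ((q : ℝ))⁻¹ := by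
          apply Finset.sum_le_sum
          intro q hq
          rw [mem_filter] at hq
          have hq1 : (0 : ℝ) < q := by exact_mod_cast hS q hq.1
          have h2 : (q : ℝ) ^ (-σ) = (q : ℝ) ^ (1 - σ) * ((q : ℝ))⁻¹ := by
            rw [← Real.rpow_neg_one, ← Real.rpow_add hq1]
            congr 1; ring
          rw [h2]
          apply mul_le_mul_of_nonneg_right _ (by positivity)
          exact Real.rpow_le_rpow hq1.le hq.2 (by linarith)
      _ ≤ ∑ q ∈ Icc 1 ⌊Z⌋₊, Z ^ (1 - σ) * ((q : ℝ))⁻¹ := by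
          apply Finset.sum_le_sum_of_subset_of_nonneg
          · intro q hq
            rw [mem_filter] at hq
            rw [mem_Icc]
            exact ⟨hS q hq.1, Nat.le_floor hq.2⟩
          · intro q _ _; positivity
      _ = Z ^ (1 - σ) * ((harmonic ⌊Z⌋₊ : ℚ) : ℝ) := by
          rw [← Finset.mul_sum, harmonic_eq_sum_Icc]
          push_cast
          rfl
      _ ≤ Z ^ (1 - σ) * (1 + Real.log Z) := by
          apply mul_le_mul_of_nonneg_left (harmonic_floor_le_one_add_log Z hZ) (by positivity)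
  have h2 : ∑ q ∈ S.filter (fun q : ℕ => ¬ (q : ℝ) ≤ Z), (q : ℝ) ^ (-σ) ≤ Z ^ (1 - σ) := by
    calc ∑ q ∈ S.filter (fun q : ℕ => ¬ (q : ℝ) ≤ Z), (q : ℝ) ^ (-σ)
        ≤ ∑ q ∈ S.filter (fun q : ℕ => ¬ (q : ℝ) ≤ Z), Z ^ (-σ) := by
          apply Finset.sum_le_sum
          intro q hq
          rw [mem_filter, not_le] at hq
          exact Real.rpow_le_rpow_of_nonpos hZ0 hq.2.le (by linarith)
      _ = ((S.filter (fun q : ℕ => ¬ (q : ℝ) ≤ Z)).card : ℝ) * Z ^ (-σ) := by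
          rw [Finset.sum_const, nsmul_eq_mul]
      _ ≤ Z * Z ^ (-σ) := by
          apply mul_le_mul_of_nonneg_right _ (by positivity)
          refine le_trans ?_ hc
          exact_mod_cast Finset.card_filter_le _ _
      _ = Z ^ (1 - σ) := by
          rw [sub_eq_add_neg, Real.rpow_add hZ0, Real.rpow_one]
  linarith

theorem prim_case {A ε : ℝ} (hA : 1 ≤ A) (hε : 0 < ε) : ∀ᶠ X : ℝ in atTop,
    (PrimExc A X).Finite ∧ ((PrimExc A X).ncard : ℝ) ≤ X ^ (1 - 1 / (3 * A) + ε) := by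
  classical
  set e : ℝ := min ε (1 / (6 * A)) with he
  have hA0 : 0 < A := by linarith
  have he0 : 0 < e := lt_min hε (by positivity)
  have he1 : e ≤ ε := min_le_left _ _
  have he2 : e ≤ 1 / (6 * A) := min_le_right _ _
  have hA3 : 1 / (3 * A) = 2 * (1 / (6 * A)) := by field_simp; norm_num
  have hA6 : 0 < 1 / (6 * A) := by positivity
  have hA6' : 1 / (6 * A) ≤ 1 / 6 := by
    rw [div_le_div_iff₀ (by positivity) (by norm_num)]; linarith
  set σ : ℝ := 1 - 1 / (3 * A) + e / 2 with hσ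
  have hσ1 : 1 / 2 ≤ σ := by rw [hσ, hA3]; linarith
  have hσ2 : σ ≤ 1 := by rw [hσ, hA3]; linarith
  set κ : ℝ := 3 * A * e / 2 with hκ
  have hκ0 : 0 < κ := by positivity
  have h1σ : 1 - σ = 1 / (3 * A) - e / 2 := by rw [hσ]; ring
  have h3A : 3 * A * (1 - σ) = 1 - κ := by
    rw [h1σ, hκ]; field_simp
  have hκ1 : κ ≤ 1 := by
    have : 0 ≤ 3 * A * (1 - σ) := mul_nonneg (by positivity) (by linarith)
    linarith
  have ev1 : ∀ᶠ X : ℝ in atTop, 80 * (4 + 6 * A / κ) / e ≤ (Real.log X) ^ (κ / 2) :=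
    ((tendsto_rpow_atTop (by positivity)).comp Real.tendsto_log_atTop).eventually_ge_atTop _
  have ev2 : ∀ᶠ X : ℝ in atTop, 2 ≤ X ^ (e / 4) :=
    (tendsto_rpow_atTop (by positivity)).eventually_ge_atTop _
  have ev3 : ∀ᶠ X : ℝ in atTop, 1 ≤ Real.log X := Real.tendsto_log_atTop.eventually_ge_atTop _
  filter_upwards [ev1, ev2, ev3, eventually_ge_atTop (1 : ℝ)] with X h1 h2 h3 hX
  have hX0 : (0 : ℝ) < X := by linarith
  set L := Real.log X with hL
  have hL0 : 0 < L := by linarith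
  set P := ⌊L ^ A⌋₊ with hP
  have hLA : 1 ≤ L ^ A := Real.one_le_rpow h3 hA0.le
  have hP1 : 1 ≤ P := Nat.le_floor (by rw [Nat.cast_one]; exact hLA)
  have hPL : (P : ℝ) ≤ L ^ A := Nat.floor_le (by positivity)
  set n := ⌊X⌋₊ with hn
  set S := Bad P with hS
  have hSp : ∀ q ∈ S, q.Prime := fun q hq => Nat.prime_of_mem_primeFactors hq
  set M : Finset ℕ := (Ioc 0 n).filter (fun m => ∀ q : ℕ, q.Prime → q ∣ m → q ∈ S) with hM
  have hsub : PrimExc A X ⊆ {k : ℤ | k.natAbs ∈ M} := by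
    rintro k ⟨hkX, hk, x, p, hx, hp, hxk⟩
    rw [Set.mem_ofPred_eq, hM, mem_filter, mem_Ioc]
    have hk0 : k ≠ 0 := by
      rintro rfl
      have := isCoprime_zero_left.1 hk
      norm_num [Int.isUnit_iff] at this
    have hk1 : 0 < k.natAbs := Int.natAbs_pos.2 hk0
    refine ⟨⟨hk1, ?_⟩, ?_⟩
    · rw [hn]
      apply Nat.le_floor
      rw [Nat.cast_natAbs, Int.cast_abs]
      exact hkX
    · intro q hq hqk
      have hqk' : (q : ℤ) ∣ k := Int.natCast_dvd.2 hqk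
      have hqx : ¬ (q : ℤ) ∣ x := by
        intro h
        have := hxk.isUnit_of_dvd' h hqk'
        rw [Int.isUnit_iff] at this
        have h2 := hq.two_le
        rcases this with h4 | h4 <;> omega
      obtain ⟨o, ho, hd⟩ := ends_dvd hk hx (a := 1) hq (by rwa [pow_one]) (by rwa [pow_one])
      exact mem_Bad hq hx.1 (Nat.le_floor hp) ho hd
  obtain ⟨hf, hc⟩ := natAbs_fin M
  refine ⟨hf.subset hsub, ?_⟩
  have hc1 := (Set.ncard_le_ncard hsub hf).trans hc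
  have hc2 : ((PrimExc A X).ncard : ℝ) ≤ 2 * (M.card : ℝ) := by exact_mod_cast hc1
  have hMc := rankin hσ1 hSp hX M (by
    intro m hm
    rw [hM, mem_filter, mem_Ioc] at hm
    refine ⟨by omega, ?_, hm.2⟩
    have h4 : (m : ℝ) ≤ n := by exact_mod_cast hm.1.2
    exact h4.trans (Nat.floor_le hX0.le))
  set Z : ℝ := 5 * L ^ (3 * A) with hZ
  have hL3 : 1 ≤ L ^ (3 * A) := Real.one_le_rpow h3 (by positivity)
  have hZ1 : 1 ≤ Z := by rw [hZ]; linarith
  have hSc : (S.card : ℝ) ≤ Z := by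
    refine (card_Bad hP1).trans ?_
    rw [hZ]
    have h4 : (P : ℝ) ^ 3 ≤ (L ^ A) ^ 3 := pow_le_pow_left₀ (by positivity) hPL 3
    have h5 : (L ^ A) ^ 3 = L ^ (3 * A) := by
      rw [← Real.rpow_natCast, ← Real.rpow_mul hL0.le]
      congr 1; push_cast; ring
    rw [h5] at h4
    linarith
  have hsum := sum_rpow_le (by linarith : (0 : ℝ) ≤ σ) hσ2 hZ1 (fun q hq => (hSp q hq).one_lt.le) hSc
  have hZσ : Z ^ (1 - σ) ≤ 5 * L ^ (1 - κ) := by
    rw [hZ, Real.mul_rpow (by norm_num) (by positivity), ← Real.rpow_mul hL0.le, h3A]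
    apply mul_le_mul_of_nonneg_right _ (by positivity)
    calc (5 : ℝ) ^ (1 - σ) ≤ 5 ^ (1 : ℝ) := Real.rpow_le_rpow_of_exponent_le (by norm_num) (by linarith)
      _ = 5 := Real.rpow_one 5
  have hlog5 : Real.log 5 ≤ 2 := by
    rw [Real.log_le_iff_le_exp (by norm_num)]
    have h4 : (2.7182818283 : ℝ) < Real.exp 1 := Real.exp_one_gt_d9
    have h5 : Real.exp 2 = Real.exp 1 * Real.exp 1 := by rw [← Real.exp_add]; norm_num
    rw [h5]; nlinarith
  have hlogZ : 2 + Real.log Z ≤ (4 + 6 * A / κ) * L ^ (κ / 2) := by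
    have h4 : Real.log Z = Real.log 5 + 3 * A * Real.log L := by
      rw [hZ, Real.log_mul (by norm_num) (by positivity), Real.log_rpow hL0]
    have h5 : Real.log L ≤ L ^ (κ / 2) / (κ / 2) := Real.log_le_rpow_div hL0.le (by positivity)
    have h6 : 1 ≤ L ^ (κ / 2) := Real.one_le_rpow h3 (by positivity)
    have h7 : 3 * A * Real.log L ≤ 3 * A * (L ^ (κ / 2) / (κ / 2)) :=
      mul_le_mul_of_nonneg_left h5 (by positivity)
    have h8 : 3 * A * (L ^ (κ / 2) / (κ / 2)) = 6 * A / κ * L ^ (κ / 2) := by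
      field_simp; norm_num
    rw [h4]
    nlinarith
  have hexp : 4 * ∑ q ∈ S, (q : ℝ) ^ (-σ) ≤ e / 4 * L := by
    have h4 : ∑ q ∈ S, (q : ℝ) ^ (-σ) ≤ 5 * L ^ (1 - κ) * ((4 + 6 * A / κ) * L ^ (κ / 2)) := by
      refine hsum.trans ?_
      have h5 : 0 ≤ 2 + Real.log Z := by have := Real.log_nonneg hZ1; linarith
      apply mul_le_mul hZσ hlogZ h5 (by positivity)
    have h5 : L ^ (1 - κ) * L ^ (κ / 2) * L ^ (κ / 2) = L := by
      rw [← Real.rpow_add hL0, ← Real.rpow_add hL0]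
      have : 1 - κ + κ / 2 + κ / 2 = 1 := by ring
      rw [this, Real.rpow_one]
    rw [div_le_iff₀ he0] at h1
    have h6 : 0 ≤ L ^ (1 - κ) * L ^ (κ / 2) := by positivity
    calc 4 * ∑ q ∈ S, (q : ℝ) ^ (-σ) ≤ 4 * (5 * L ^ (1 - κ) * ((4 + 6 * A / κ) * L ^ (κ / 2))) := by linarith
      _ = (80 * (4 + 6 * A / κ)) * (L ^ (1 - κ) * L ^ (κ / 2)) / 4 := by ring
      _ ≤ (L ^ (κ / 2) * e) * (L ^ (1 - κ) * L ^ (κ / 2)) / 4 := by
          apply div_le_div_of_nonneg_right _ (by norm_num)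
          exact mul_le_mul_of_nonneg_right h1 h6
      _ = e / 4 * (L ^ (1 - κ) * L ^ (κ / 2) * L ^ (κ / 2)) := by ring
      _ = e / 4 * L := by rw [h5]
  have hexp2 : Real.exp (4 * ∑ q ∈ S, (q : ℝ) ^ (-σ)) ≤ X ^ (e / 4) := by
    rw [Real.rpow_def_of_pos hX0]
    apply Real.exp_le_exp.2
    rw [← hL]; linarith
  calc ((PrimExc A X).ncard : ℝ) ≤ 2 * (M.card : ℝ) := hc2
    _ ≤ X ^ (e / 4) * (X ^ σ * X ^ (e / 4)) := by
        apply mul_le_mul h2 _ (by positivity) (by positivity)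
        refine hMc.trans ?_
        exact mul_le_mul_of_nonneg_left hexp2 (by positivity)
    _ = X ^ (1 - 1 / (3 * A) + e) := by
        rw [← Real.rpow_add hX0, ← Real.rpow_add hX0]
        congr 1
        rw [hσ]; ring
    _ ≤ X ^ (1 - 1 / (3 * A) + ε) := Real.rpow_le_rpow_of_exponent_le hX (by linarith)

end Pool.Agent.K9h56.SC
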